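import Pool.Agent.Helper7.RD.Sys
import Pool.Agent.Helper59.OKD.Ta
import Pool.Agent.Helper37.DK2.Nst

/-! TANGENTS OF ROW ZOOMS: the tangents of the leaves of the zoom are the images of the tangents of the leaves under the
Jacobian of the rows, up to an error of the size of the unit. -/

set_option autoImplicit false

namespace Pool.Agent.Helper3.RT

open Finset Filter Topology Matrix MvPolynomial Pool.Agent.Helper69.RK Pool.Agent.Helper31.EC Pool.Agent.Helper31.EC.Sp
open Pool.Agent.Helper40.EL Pool.Agent.Helper89.LX Pool.Agent.Helper3.LF Pool.Agent.Helper84.MT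
open Pool.Agent.Helper37.DK2 (ltan)
open Pool.Agent.Helper7.GZ (jac offS ofPolyT)
open Pool.Agent.Helper7.RD (RW)
open Pool.Agent.Helper89.TAY (crn crn_lt)

noncomputable section

/-! ### the elementary part -/

/-- a Bernstein inequality bounds the derivative in the middle -/
theorem bms_der {φ : ℝ → ℝ} {φ' B A : ℝ} (hB0 : 0 ≤ B) (hB : BmS B φ) (hA : ∀ u ∈ Set.Icc (0 : ℝ) 1, |φ u| ≤ A)
    (hd : HasDerivAt φ φ' (1 / 2)) : |φ'| ≤ B * A := by
  have hA0 : 0 ≤ A := (abs_nonneg _).trans (hA 0 ⟨le_rfl, zero_le_one⟩)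
  have h1 := hd.le_of_lip' (C := B * A) (mul_nonneg hB0 hA0) (by
    have h2 : Set.Ioo (0 : ℝ) 1 ∈ 𝓝 (1 / 2 : ℝ) := Ioo_mem_nhds (by norm_num) (by norm_num)
    filter_upwards [h2] with x hx
    have h3 := hB A hA x ⟨hx.1.le, hx.2.le⟩ (1 / 2) ⟨by norm_num, by norm_num⟩
    rw [Real.norm_eq_abs, Real.norm_eq_abs]
    linarith)
  rwa [Real.norm_eq_abs] at h1

/-- the segment through the point in the direction of the parameter `a` -/
theorem seg_eq {e : ℕ} (Y : Fin e → ℝ) (a : Fin e) (δ u : ℝ) :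
    (fun i => Function.update Y a (Y a - δ / 2) i + u * (Function.update Y a (Y a + δ / 2) i -
      Function.update Y a (Y a - δ / 2) i)) = Function.update Y a (Y a + δ * (u - 1 / 2)) := by
  funext i
  by_cases hi : i = a
  · subst hi
    rw [Function.update_self, Function.update_self, Function.update_self]
    ring
  · rw [Function.update_of_ne hi, Function.update_of_ne hi, Function.update_of_ne hi]
    ring

/-- COMPARISON OF THE DERIVATIVES of two functions which are close on the segment -/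
theorem tan_bound {M e : ℕ} {F : (Fin e → ℝ) → Fin M → ℝ} {Y y0 o : Fin e → ℝ} {δ : ℝ} (hδ : 0 < δ)
    (hY : ∀ a, Y a = o a + δ * y0 a) {p : MvPolynomial (Fin M) ℝ} {G : MvPolynomial (Fin e) ℝ} {L : Fin M → ℝ}
    {a : Fin e} (hL : ∀ r, HasDerivAt (fun t => F (Function.update Y a t) r) (L r) (Y a)) {B A : ℝ} (hB0 : 0 ≤ B)
    (hB : BmS B (fun u => (fun y => eval (F y) p - eval (fun b => δ⁻¹ * (y b - o b)) G)
      (fun i => Function.update Y a (Y a - δ / 2) i + u * (Function.update Y a (Y a + δ / 2) i -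
        Function.update Y a (Y a - δ / 2) i))))
    (hA : ∀ y : Fin e → ℝ, (∀ b, |y b - y0 b| < 1) → |eval (F (fun b => o b + δ * y b)) p - eval y G| ≤ A) :
    |δ * (∑ i, eval (F Y) (pderiv i p) * L i) - eval y0 (pderiv a G)| ≤ B * A := by
  classical
  set φ : ℝ → ℝ := fun u => eval (F (Function.update Y a (Y a + δ * (u - 1 / 2)))) p -
    eval (Function.update y0 a (y0 a + (u - 1 / 2))) G with hφ
  have e0 : ∀ u : ℝ, (fun b => δ⁻¹ * (Function.update Y a (Y a + δ * (u - 1 / 2)) b - o b)) =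
      Function.update y0 a (y0 a + (u - 1 / 2)) := by
    intro u
    funext b
    by_cases hb : b = a
    · subst hb
      rw [Function.update_self, Function.update_self, hY]
      field_simp
      ring
    · rw [Function.update_of_ne hb, Function.update_of_ne hb, hY]
      field_simp
      ring
  have e1 : ∀ u : ℝ, (fun b => o b + δ * Function.update y0 a (y0 a + (u - 1 / 2)) b) =
      Function.update Y a (Y a + δ * (u - 1 / 2)) := by
    intro u
    funext b
    by_cases hb : b = a
    · subst hb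
      rw [Function.update_self, Function.update_self, hY]
      ring
    · rw [Function.update_of_ne hb, Function.update_of_ne hb, hY]
  have hB' : BmS B φ := by
    have e2 : (fun u : ℝ => (fun y => eval (F y) p - eval (fun b => δ⁻¹ * (y b - o b)) G)
        (fun i => Function.update Y a (Y a - δ / 2) i + u * (Function.update Y a (Y a + δ / 2) i -
          Function.update Y a (Y a - δ / 2) i))) = φ := by
      funext u
      rw [seg_eq]
      show eval (F (Function.update Y a (Y a + δ * (u - 1 / 2)))) p -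
        eval (fun b => δ⁻¹ * (Function.update Y a (Y a + δ * (u - 1 / 2)) b - o b)) G = _
      rw [e0 u]
    rw [e2] at hB
    exact hB
  have hA' : ∀ u ∈ Set.Icc (0 : ℝ) 1, |φ u| ≤ A := by
    intro u hu
    have h1 := hA (Function.update y0 a (y0 a + (u - 1 / 2))) (fun b => by
      by_cases hb : b = a
      · subst hb
        rw [Function.update_self, add_sub_cancel_left, abs_lt]
        constructor <;> linarith [hu.1, hu.2]
      · rw [Function.update_of_ne hb, sub_self, abs_zero]
        exact zero_lt_one)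
    rw [e1 u] at h1
    exact h1
  have hd : HasDerivAt φ (δ * (∑ i, eval (F Y) (pderiv i p) * L i) - eval y0 (pderiv a G)) (1 / 2) := by
    have h0 : Y a + δ * ((1 / 2 : ℝ) - 1 / 2) = Y a := by ring
    have h1 : ∀ r, HasDerivAt (fun u : ℝ => F (Function.update Y a (Y a + δ * (u - 1 / 2))) r) (L r * δ) (1 / 2) := by
      intro r
      have h2 : HasDerivAt (fun u : ℝ => Y a + δ * (u - 1 / 2)) δ (1 / 2) := by
        have h3 := (((hasDerivAt_id (1 / 2 : ℝ)).sub_const (1 / 2)).const_mul δ).const_add (Y a)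
        rw [mul_one] at h3
        exact h3
      have h4 := hL r
      rw [← h0] at h4
      exact h4.comp (1 / 2 : ℝ) h2
    have h5 := Pool.Agent.Helper59.OKD.hasDerivAt_eval p
      (g := fun u : ℝ => F (Function.update Y a (Y a + δ * (u - 1 / 2)))) h1
    have h6 : HasDerivAt (fun u : ℝ => eval (Function.update y0 a (y0 a + (u - 1 / 2))) G)
        (eval y0 (pderiv a G)) (1 / 2) := by
      have h7 : HasDerivAt (fun u : ℝ => y0 a + (u - 1 / 2)) 1 (1 / 2) :=
        ((hasDerivAt_id (1 / 2 : ℝ)).sub_const (1 / 2)).const_add (y0 a)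
      have h8 := hasDerivAt_pderiv a G y0
      have h9 : y0 a + ((1 / 2 : ℝ) - 1 / 2) = y0 a := by ring
      have h10 : HasDerivAt (fun t => eval (Function.update y0 a t) G) (eval y0 (pderiv a G))
          (y0 a + ((1 / 2 : ℝ) - 1 / 2)) := by
        rw [h9]
        exact h8
      have h11 := h10.comp (1 / 2 : ℝ) h7
      rw [mul_one] at h11
      exact h11
    have h12 := h5.sub h6
    refine h12.congr_deriv ?_
    rw [h0, Function.update_eq_self, Finset.mul_sum]
    congr 1
    refine Finset.sum_congr rfl fun i _ => ?_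
    ring
  exact bms_der hB0 hB' hA' hd

/-! ### the tangents of a row zoom -/

variable {S : Sp} {M M' : ℕ} {E : ℕ → ℕ} {ι : Type}

/-- derivatives of the chart at the point -/
theorem ltan_der {Q : S.VV M} (l : Leaf S Q E) : ∀ᶠ k in UF, ∀ ω, (S.F k).μ ω ≠ 0 → ∀ a r,
    HasDerivAt (fun t => l.F k ω (Function.update (l.Y.v k ω) a t) r) (ltan l k ω a r) (l.Y.v k ω a) := by
  filter_upwards [l.alg, l.crF] with k h1 h2 ω hω a r
  obtain ⟨g, -, hg⟩ := (h1 ω hω).der 1 _ (h2 ω hω r) a
  have h3 := hg (l.Y.v k ω) (fun j => by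
    rw [sub_self, abs_zero]
    exact zero_lt_one)
  have h4 : ltan l k ω a r = g (l.Y.v k ω) := h3.deriv
  rw [h4]
  exact h3

/-- THE TANGENTS OF A ROW ZOOM -/
theorem rw_tan {s : MSys S M E ι} (z : RW s M') (i : ι) : ∃ K : ℕ → ℝ, S.Sub K ∧
    Typ (S := z.Z.l.sp) (fun k (ω : (z.Z.l k).T.Ω) => ∀ a : Fin (s.lf i).e, ∃ a' : Fin (z.sys.lf i).e, ∀ j,
      |S.dl z.Z.c k * (jac (z.R.p k ω) ((s.lf i).F k ((z.Z.l k).p.π ω) ((s.lf i).Y.v k ((z.Z.l k).p.π ω))) *ᵥ
        ltan (s.lf i) k ((z.Z.l k).p.π ω) a) j - ltan (z.sys.lf i) k ω a' j| ≤ K k * S.dl z.Z.u k) := by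
  classical
  obtain ⟨Ks, hKs, hseg⟩ := (s.lf i).seg (max z.D z.κ)
  refine ⟨fun k => Ks k * z.K i k, hKs.mul (z.K_sub i), ?_⟩
  have hT : Typ (S := z.Z.sp) (fun k (ω : (z.Z.l k).T.Ω) => z.A i k ω ∧ ∀ y : Fin (s.lf i).e → ℝ,
    (∀ a, |y a - (z.Z.fr (s.lf i).Y).v k ω a| < 1) → ∀ j,
      |MvPolynomial.eval ((s.lf i).F k ((z.Z.l k).p.π ω) (fun a =>
        Pool.Agent.Helper89.TAY.crn (s.lf i) z.Z.c k ((z.Z.l k).p.π ω) a + S.dl z.Z.c k * y a)) (z.R.p k ω j) -
          MvPolynomial.eval y (z.G i k ω j)| ≤ z.K i k * S.dl z.Z.u k) := (z.A_typ i).and (z.G_cube i)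
  refine Typ.mono (S := z.Z.sp) hT ?_
  filter_upwards [hseg, (s.lf i).alg, (s.lf i).eval_mem z.D, ltan_der (s.lf i), hKs.1] with k h1 h2 h3 h4 h5
  intro (ω : (z.Z.l k).T.Ω) hω hh a
  obtain ⟨hA, hC⟩ := hh
  have hω' : (S.F k).μ ((z.Z.l k).p.π ω) ≠ 0 := (z.Z.l k).p.supp ω hω
  have hδ : 0 < S.dl z.Z.c k := S.dl_pos _ _
  have hδ1 : S.dl z.Z.c k ≤ 1 := z.Z.dl_c_le k
  refine ⟨a, fun j => ?_⟩
  set W : (S.F k).Ω := (z.Z.l k).p.π ω with hW
  set Y : Fin (s.lf i).e → ℝ := (s.lf i).Y.v k W with hYd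
  set y0 : Fin (s.lf i).e → ℝ := (z.Z.fr (s.lf i).Y).v k ω with hy0
  have hY : ∀ b, Y b = crn (s.lf i) z.Z.c k W b + S.dl z.Z.c k * y0 b := by
    intro b
    rw [hy0, z.Z.fr_v]
    show Y b = S.dl z.Z.c k * ⌊Y b / S.dl z.Z.c k⌋ + S.dl z.Z.c k * (Y b / S.dl z.Z.c k - ⌊Y b / S.dl z.Z.c k⌋)
    field_simp
    ring
  -- the tangent of the zoom
  have e1 : ltan (z.sys.lf i) k ω a j = MvPolynomial.eval y0 (pderiv a (z.G i k ω j)) := by
    have e2 : (fun t => (z.sys.lf i).F k ω (Function.update ((z.sys.lf i).Y.v k ω) a t) j) =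
        fun t => MvPolynomial.eval (Function.update y0 a t) (z.G i k ω j) := by
      funext t
      show MvPolynomial.eval (Function.update y0 a t) (if z.A i k ω then z.G i k ω j else _) = _
      rw [if_pos hA]
    have e3 : ltan (z.sys.lf i) k ω a j = deriv (fun t => MvPolynomial.eval (Function.update y0 a t) (z.G i k ω j))
        (y0 a) := by
      show deriv (fun t => (z.sys.lf i).F k ω (Function.update ((z.sys.lf i).Y.v k ω) a t) j)
        ((z.sys.lf i).Y.v k ω a) = _
      rw [e2]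
      rfl
    rw [e3]
    exact (hasDerivAt_pderiv a (z.G i k ω j) y0).deriv
  -- the algebra
  have hal := h2 W hω'
  have hmem : (fun y => MvPolynomial.eval ((s.lf i).F k W y) (z.R.p k ω j) -
      MvPolynomial.eval (fun b => (S.dl z.Z.c k)⁻¹ * (y b - crn (s.lf i) z.Z.c k W b)) (z.G i k ω j)) ∈
        (s.lf i).al k W (max z.D z.κ) := by
    refine hal.sub (hal.mono _ _ (le_max_left _ _) (h3 W hω' _ (z.R.deg k ω j))) ?_
    have h6 := hal.eval (κ := 1) (fun b y => (S.dl z.Z.c k)⁻¹ * (y b - crn (s.lf i) z.Z.c k W b))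
      (fun b => hal.smul (hal.sub (hal.crd b) (hal.const' 1 _)) _) (z.G i k ω j) (z.G_deg i k ω j)
    rw [one_mul] at h6
    exact hal.mono _ _ (le_max_right _ _) h6
  have hs := (h1 W hω' _ hmem (Function.update Y a (Y a - S.dl z.Z.c k / 2))
    (Function.update Y a (Y a + S.dl z.Z.c k / 2)) (fun b => by
      by_cases hb : b = a
      · subst hb
        rw [Function.update_self, abs_le]
        constructor <;> linarith
      · rw [Function.update_of_ne hb, sub_self, abs_zero]
        exact zero_le_one) (fun b => by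
      by_cases hb : b = a
      · subst hb
        rw [Function.update_self, abs_le]
        constructor <;> linarith
      · rw [Function.update_of_ne hb, sub_self, abs_zero]
        exact zero_le_one)).2
  have hb := tan_bound (F := (s.lf i).F k W) (Y := Y) (y0 := y0) (o := crn (s.lf i) z.Z.c k W) hδ hY
    (p := z.R.p k ω j) (G := z.G i k ω j) (L := ltan (s.lf i) k W a) (a := a) (fun r => h4 W hω' a r) h5 hs
    (A := z.K i k * S.dl z.Z.u k) (fun y hy => hC y hy j)
  rw [e1]
  have e4 : (jac (z.R.p k ω) ((s.lf i).F k W Y) *ᵥ ltan (s.lf i) k W a) j =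
      ∑ r, MvPolynomial.eval ((s.lf i).F k W Y) (pderiv r (z.R.p k ω j)) * ltan (s.lf i) k W a r := rfl
  rw [e4]
  refine hb.trans (le_of_eq ?_)
  ring

end

end Pool.Agent.Helper3.RT
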